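import Pool.Agent.H30.EE.TargetsP

/-!
# MP_70ba79_ag: module LPA of the board `ee_modules`

Lemma P (3d), structure: a Harder-Narasimhan piece whose elements have a common prime factor `p`
consists of all multiples of `p`, and `p` vanishes at the point.
-/

set_option autoImplicit false

namespace Pool.Agent.H47.EE

open MvPolynomial SC Pool.Agent.H27.LV Pool.Agent.H17.VG Pool.Agent.H30.EE

section Homog

variable {K σ : Type} [Field K]

/-- the polynomial `p (t X)` -/
noncomputable def tt : MvPolynomial σ K →ₐ[K] Polynomial (MvPolynomial σ K) :=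
  aeval fun i => Polynomial.C (X i) * Polynomial.X

theorem tt_monomial (s : σ →₀ ℕ) (c : K) :
    tt (monomial s c) = Polynomial.C (monomial s c) * Polynomial.X ^ s.degree := by
  unfold tt
  rw [aeval_monomial]
  have h1 : (algebraMap K (Polynomial (MvPolynomial σ K))) c = Polynomial.C (C c) := by
    rw [IsScalarTower.algebraMap_apply K (MvPolynomial σ K) (Polynomial (MvPolynomial σ K)),
      Polynomial.algebraMap_apply, Algebra.algebraMap_self, RingHom.id_apply,
      MvPolynomial.algebraMap_eq]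
  rw [h1, Finsupp.prod]
  simp only [mul_pow, Finset.prod_mul_distrib, Finset.prod_pow_eq_pow_sum]
  rw [monomial_eq, Finsupp.prod, Polynomial.C_mul, map_prod]
  simp only [Polynomial.C_pow]
  rw [mul_assoc]
  rfl

theorem coeff_tt (p : MvPolynomial σ K) (m : ℕ) :
    (tt p).coeff m = homogeneousComponent m p := by
  conv_lhs => rw [p.as_sum, map_sum]
  rw [Polynomial.finsetSum_coeff, homogeneousComponent_apply, Finset.sum_filter]
  refine Finset.sum_congr rfl fun s _ => ?_
  rw [tt_monomial, Polynomial.coeff_C_mul, Polynomial.coeff_X_pow]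
  by_cases h : m = s.degree
  · rw [if_pos h, if_pos h.symm, mul_one]
  · rw [if_neg h, if_neg (Ne.symm h), mul_zero]

theorem tt_ne {p : MvPolynomial σ K} (hp : p ≠ 0) : tt p ≠ 0 := by
  intro h
  apply hp
  rw [← sum_homogeneousComponent p]
  refine Finset.sum_eq_zero fun i _ => ?_
  rw [← coeff_tt, h, Polynomial.coeff_zero]

/-- divisors of forms are forms -/
theorem homog_mul {p q : MvPolynomial σ K} {a : ℕ} (hG : (p * q).IsHomogeneous a)
    (hp : p ≠ 0) (hq : q ≠ 0) :
    ∃ b c : ℕ, b + c = a ∧ p.IsHomogeneous b ∧ q.IsHomogeneous c := by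
  have hG1 : tt (p * q) = Polynomial.C (p * q) * Polynomial.X ^ a := by
    ext1 m
    rw [coeff_tt, Polynomial.coeff_C_mul, Polynomial.coeff_X_pow,
      homogeneousComponent_of_mem ((mem_homogeneousSubmodule a _).2 hG)]
    by_cases h : m = a
    · rw [if_pos h, if_pos h, mul_one]
    · rw [if_neg h, if_neg h, mul_zero]
  rw [map_mul] at hG1
  have h1 : (tt p).natDegree + (tt q).natDegree = a := by
    rw [← Polynomial.natDegree_mul (tt_ne hp) (tt_ne hq), hG1,
      Polynomial.natDegree_C_mul_X_pow _ _ (mul_ne_zero hp hq)]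
  have h2 : (tt p).natTrailingDegree + (tt q).natTrailingDegree = a := by
    rw [← Polynomial.natTrailingDegree_mul (tt_ne hp) (tt_ne hq), hG1,
      Polynomial.natTrailingDegree_mul_X_pow (by
        rw [Ne, Polynomial.C_eq_zero]; exact mul_ne_zero hp hq), Polynomial.natTrailingDegree_C,
      zero_add]
  have h3 := Polynomial.natTrailingDegree_le_natDegree (tt p)
  have h4 := Polynomial.natTrailingDegree_le_natDegree (tt q)
  have key : ∀ r : MvPolynomial σ K, (tt r).natTrailingDegree = (tt r).natDegree →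
      r.IsHomogeneous (tt r).natDegree := by
    intro r hr
    have h5 : homogeneousComponent (tt r).natDegree r = r := by
      conv_rhs => rw [← sum_homogeneousComponent r]
      by_cases h0 : (tt r).natDegree ∈ Finset.range (r.totalDegree + 1)
      · rw [Finset.sum_eq_single_of_mem _ h0]
        intro m _ hm
        rw [← coeff_tt]
        rcases lt_or_gt_of_ne hm with h | h
        · exact Polynomial.coeff_eq_zero_of_lt_natTrailingDegree (by omega)
        · exact Polynomial.coeff_eq_zero_of_natDegree_lt h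
      · rw [Finset.mem_range, not_lt] at h0
        rw [homogeneousComponent_eq_zero _ _ (by omega)]
        symm
        refine Finset.sum_eq_zero fun m hm => ?_
        rw [Finset.mem_range] at hm
        rw [← coeff_tt]
        exact Polynomial.coeff_eq_zero_of_lt_natTrailingDegree (by omega)
    rw [← h5]
    have := homogeneousComponent_isHomogeneous (tt r).natDegree r
    rwa [h5] at this ⊢
  exact ⟨_, _, h1, key p (by omega), key q (by omega)⟩

end Homog

section Piece

variable {K : Type} [Field K] {n : ℕ}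

theorem finite_Sd (n d : ℕ) : Module.Finite K (Sd K n d) :=
  Module.Finite.iff_fg.2 (homogeneousSubmodule_fg _ _ d)

theorem mem_Md {d : ℕ} {y : Fin (n + 1) → K} {G : MvPolynomial (Fin (n + 1)) K} :
    G ∈ Md d y ↔ G.IsHomogeneous d ∧ eval y G = 0 := by
  unfold Md
  rw [Submodule.mem_inf, LinearMap.mem_ker, mem_homogeneousSubmodule]
  refine and_congr Iff.rfl ?_
  rw [AlgHom.toLinearMap_apply]
  rfl

theorem mem_mulW {G H : MvPolynomial (Fin (n + 1)) K}
    {W : Submodule K (MvPolynomial (Fin (n + 1)) K)} :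
    H ∈ mulW G W ↔ ∃ q ∈ W, G * q = H := by
  unfold mulW
  rw [Submodule.mem_map]
  rfl

theorem finrank_mulW {G : MvPolynomial (Fin (n + 1)) K} (hG : G ≠ 0)
    (W : Submodule K (MvPolynomial (Fin (n + 1)) K)) :
    Module.finrank K (mulW G W) = Module.finrank K W := by
  unfold mulW
  have hi : Function.Injective (LinearMap.mulLeft K G) := by
    intro a b hab
    exact mul_left_cancel₀ hG hab
  exact (LinearEquiv.finrank_eq (Submodule.equivMapOfInjective _ hi W)).symm

/-- a prime does not divide all coordinates -/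
theorem exists_not_dvd (hn : 1 ≤ n) {p : MvPolynomial (Fin (n + 1)) K} (hp : Irreducible p)
    (b : ℕ) : ∃ i : Fin (n + 1), ¬ p ∣ X i ^ b := by
  by_contra hcon
  push Not at hcon
  have hpp : Prime p := hp.prime
  have h0 := hpp.dvd_of_dvd_pow (hcon 0)
  have h1 := hpp.dvd_of_dvd_pow (hcon (Fin.last n))
  have hX : Irreducible (X 0 : MvPolynomial (Fin (n + 1)) K) := X_prime.irreducible
  have h2 : (X 0 : MvPolynomial (Fin (n + 1)) K) ∣ p := (hp.dvd_symm hX h0)
  have h3 := X_dvd_X.1 (h2.trans h1)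
  have h4 := congrArg Fin.val h3
  simp at h4
  omega

/-- the infinite descent -/
theorem no_stable {p Q : MvPolynomial (Fin (n + 1)) K} (hp : Irreducible p) (hQ : ¬ p ∣ Q)
    {W : Submodule K (MvPolynomial (Fin (n + 1)) K)} (h : mulW Q W ≤ mulW p W) : W = ⊥ := by
  have h1 : ∀ m : ℕ, ∀ q ∈ W, p ^ m ∣ q := by
    intro m
    induction m with
    | zero => intro q _; rw [pow_zero]; exact one_dvd q
    | succ m ih =>
      intro q hq
      obtain ⟨q', hq', he⟩ := mem_mulW.1 (h (mem_mulW.2 ⟨q, hq, rfl⟩))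
      refine hp.prime.pow_dvd_of_dvd_mul_left (m + 1) hQ ?_
      rw [← he, pow_succ']
      exact mul_dvd_mul_left p (ih q' hq')
  rw [Submodule.eq_bot_iff]
  intro q hq
  by_contra hq0
  obtain ⟨N, hN⟩ := FiniteMultiplicity.of_not_isUnit hp.not_isUnit hq0
  exact hN (h1 (N + 1) q hq)

end Piece

theorem pf_LPA (hGAU : T_GAU) (hMUL : T_MUL) (hDSP : T_DSP) (_hHNB : T_HNB) : T_LPA := by
  intro k K _ _ _ _ _ _ htr n a y μ J hn hy hJ0 hJ p hp hdiv
  obtain ⟨G, hGJ, hG0⟩ := Submodule.exists_mem_ne_zero_of_ne_bot hJ0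
  have hJle : ∀ H ∈ J, H.IsHomogeneous a ∧ eval y H = 0 := fun H hH => mem_Md.1 (hJ.le hH)
  -- `p` is a form
  obtain ⟨b, hb, hph⟩ : ∃ b ≤ a, p.IsHomogeneous b := by
    obtain ⟨q, hq⟩ := hdiv G hGJ
    have hq0 : q ≠ 0 := by
      rintro rfl
      exact hG0 (by rw [hq, mul_zero])
    have hh := (hJle G hGJ).1
    rw [hq] at hh
    obtain ⟨b, c, hbc, h1, _⟩ := homog_mul hh hp.ne_zero hq0
    exact ⟨b, by omega, h1⟩
  have hb1 : 1 ≤ b := by
    rcases Nat.eq_zero_or_pos b with rfl | h
    · exfalso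
      rw [← totalDegree_zero_iff_isHomogeneous, totalDegree_eq_zero_iff_eq_C] at hph
      apply hp.not_isUnit
      rw [hph]
      refine (IsUnit.mk0 _ fun h0 => hp.ne_zero ?_).map (C : K →+* MvPolynomial (Fin (n + 1)) K)
      rw [hph, h0, C_0]
    · exact h
  have hab : a - b + b = a := Nat.sub_add_cancel hb
  -- the quotients
  set J2 : Submodule K (MvPolynomial (Fin (n + 1)) K) :=
    Sd K n (a - b) ⊓ J.comap (LinearMap.mulLeft K p) with hJ2
  have hJ2S : J2 ≤ Sd K n (a - b) := inf_le_left
  have hJJ : J = mulW p J2 := by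
    apply le_antisymm
    · intro H hH
      obtain ⟨q, hq⟩ := hdiv H hH
      rw [mem_mulW]
      refine ⟨q, ⟨?_, ?_⟩, hq.symm⟩
      · rw [SetLike.mem_coe, mem_homogeneousSubmodule]
        by_cases hq0 : q = 0
        · rw [hq0]; exact isHomogeneous_zero _ _ _
        have hh := (hJle H hH).1
        rw [hq] at hh
        obtain ⟨b', c, hbc, h1, h2⟩ := homog_mul hh hp.ne_zero hq0
        have h3 := hph.inj_right h1 hp.ne_zero
        rw [show a - b = c by omega]
        exact h2
      · rw [SetLike.mem_coe, Submodule.mem_comap, LinearMap.mulLeft_apply, ← hq]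
        exact hH
    · intro H hH
      obtain ⟨q, hq, rfl⟩ := mem_mulW.1 hH
      exact hq.2
  have hJ2ne : J2 ≠ ⊥ := by
    intro h
    apply hJ0
    rw [hJJ, h]
    unfold mulW
    rw [Submodule.map_bot]
  have := finite_Sd (K := K) n (a - b)
  have hfJ2 : Module.Finite K J2 := Submodule.finiteDimensional_of_le hJ2S
  have hpos : 0 < Module.finrank K J2 := by
    rw [Module.finrank_pos_iff, Submodule.nontrivial_iff_ne_bot]
    exact hJ2ne
  obtain ⟨hbot, _, hle0, _, hspan, _⟩ := hDSP k K htr n b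
  obtain ⟨hbota, _, _, _, _, _⟩ := hDSP k K htr n a
  obtain ⟨_, htop, hle, _, _, _⟩ := hDSP k K htr n (a - b)
  have hF0 : 0 ≤ hF k b p := by
    have h1 := hspan p hp.ne_zero hph
    have h2 := hle0 (Submodule.span K {p})
    omega
  have hGp : ∀ W ≤ Sd K n (a - b),
      dS k n a (mulW p W) = dS k n (a - b) W - Module.finrank K W * hF k b p := by
    intro W hW
    have := hGAU k K htr n (a - b) b p hp.ne_zero hph W hW
    rwa [hab] at this
  have hfJ : fmu (dS k n a) μ J = (dS k n (a - b) J2 : ℚ) +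
      Module.finrank K J2 * (μ - hF k b p) := by
    unfold fmu
    rw [hJJ, hGp J2 hJ2S, finrank_mulW hp.ne_zero]
    push_cast
    ring
  have hy0 : eval y p = 0 := by
    by_contra hyp
    have hJ2M : ∀ q ∈ J2, eval y q = 0 := by
      intro q hq
      have h1 := (hJle _ hq.2).2
      rw [LinearMap.mulLeft_apply, map_mul] at h1
      exact (mul_eq_zero.1 h1).resolve_left hyp
    obtain ⟨i, hi⟩ := exists_not_dvd hn hp b
    set Q : MvPolynomial (Fin (n + 1)) K := X i ^ b with hQ
    have hup : up K (X i ^ b : MvPolynomial (Fin (n + 1)) k) = Q := by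
      unfold up
      rw [map_pow, map_X]
    have hQ0 : Q ≠ 0 := pow_ne_zero _ (X_ne_zero i)
    have hQh : Q.IsHomogeneous b := isHomogeneous_X_pow i b
    have hM := hMUL k K htr n (a - b) b (X i ^ b) (pow_ne_zero _ (X_ne_zero i))
      (isHomogeneous_X_pow i b) J2 hJ2S
    rw [hab, hup] at hM
    have hQM : mulW Q J2 ≤ Md a y := by
      intro H hH
      obtain ⟨q, hq, rfl⟩ := mem_mulW.1 hH
      rw [mem_Md]
      refine ⟨?_, ?_⟩
      · have h1 := hQh.mul ((mem_homogeneousSubmodule _ _).1 (hJ2S hq))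
        rwa [show b + (a - b) = a by omega] at h1
      · rw [map_mul, hJ2M q hq, mul_zero]
    have hfQ : fmu (dS k n a) μ (mulW Q J2) = (dS k n (a - b) J2 : ℚ) +
        Module.finrank K J2 * μ := by
      unfold fmu
      rw [hM, finrank_mulW hQ0]
      ring
    have h1 := hJ.mx _ hQM
    have h2 : fmu (dS k n a) μ (mulW Q J2) = fmu (dS k n a) μ J := by
      apply le_antisymm h1
      rw [hfQ, hfJ]
      have h3 : (0 : ℚ) ≤ hF k b p := by exact_mod_cast hF0
      have h4 : (0 : ℚ) ≤ Module.finrank K J2 := Nat.cast_nonneg _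
      nlinarith [mul_nonneg h4 h3]
    have h3 := hJ.top _ hQM h2
    apply hJ2ne
    apply no_stable hp hi
    rw [← hJJ]
    exact h3
  have hWM : mulW p (Sd K n (a - b)) ≤ Md a y := by
    intro H hH
    obtain ⟨q, hq, rfl⟩ := mem_mulW.1 hH
    rw [mem_Md]
    refine ⟨?_, ?_⟩
    · have h1 := hph.mul ((mem_homogeneousSubmodule _ _).1 hq)
      rwa [show b + (a - b) = a by omega] at h1
    · rw [map_mul, hy0, zero_mul]
  have hμ : (hF k b p : ℚ) ≤ μ := by
    have h1 := hJ.mx ⊥ bot_le
    rw [hfJ] at h1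
    unfold fmu at h1
    rw [hbota, finrank_bot] at h1
    have h2 : (dS k n (a - b) J2 : ℚ) ≤ 0 := by exact_mod_cast hle J2
    have h3 : (0 : ℚ) < Module.finrank K J2 := by exact_mod_cast hpos
    by_contra hcon
    push Not at hcon
    have h4 : (Module.finrank K J2 : ℚ) * (μ - hF k b p) < 0 :=
      mul_neg_of_pos_of_neg h3 (by linarith)
    push_cast at h1
    linarith
  refine ⟨b, hb1, hb, hph, hy0, ?_, hμ⟩
  apply le_antisymm
  · rw [hJJ]
    exact Submodule.map_mono hJ2S
  · apply hJ.top _ hWM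
    apply le_antisymm (hJ.mx _ hWM)
    rw [hfJ]
    unfold fmu
    rw [hGp _ le_rfl, htop, finrank_mulW hp.ne_zero]
    have h2 : (dS k n (a - b) J2 : ℚ) ≤ 0 := by exact_mod_cast hle J2
    have h3 : (Module.finrank K J2 : ℚ) ≤ Module.finrank K (Sd K n (a - b)) := by
      exact_mod_cast Submodule.finrank_mono hJ2S
    have h4 : (0 : ℚ) ≤ μ - hF k b p := by linarith
    push_cast
    nlinarith [mul_le_mul_of_nonneg_right h3 h4]

end Pool.Agent.H47.EE
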